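import Pool.Agent.Helper34.PM.Defs

/-!
# Zero estimate for exponential polynomials
-/

set_option autoImplicit false

namespace Pool.Agent.Helper44.PM

open Polynomial Finset Pool.Agent.PM

/-! ### the operator -/

theorem Dl_zero_time (l : ℂ) (g : ℂ[X]) : Dl l 0 g = g := rfl

theorem Dl_succ (l : ℂ) (t : ℕ) (g : ℂ[X]) : Dl l (t + 1) g = derivative (Dl l t g) + C l * Dl l t g := by
  unfold Dl
  rw [Function.iterate_succ_apply']

theorem derivative_Dl (l : ℂ) (t : ℕ) (g : ℂ[X]) : derivative (Dl l t g) = Dl l (t + 1) g - C l * Dl l t g := by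
  rw [Dl_succ]; ring

theorem Dl_zero (l : ℂ) (t : ℕ) : Dl l t 0 = 0 := by
  induction t with
  | zero => rfl
  | succ t ih => rw [Dl_succ, ih]; simp

theorem Dl_sum (l : ℂ) (t : ℕ) (g : ℂ[X]) :
    Dl l t g = ∑ j ∈ range (t + 1), C ((t.choose j : ℂ) * l ^ (t - j)) * derivative^[j] g := by
  have h1 : ∀ t : ℕ, Dl l t g = (((Polynomial.derivative : ℂ[X] →ₗ[ℂ] ℂ[X]) + l • (1 : Module.End ℂ ℂ[X])) ^ t) g := by
    intro t
    rw [Module.End.pow_apply]
    unfold Dl
    congr 1
    funext h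
    rw [LinearMap.add_apply, LinearMap.smul_apply, Module.End.one_apply, smul_eq_C_mul]
  have hcomm : Commute (Polynomial.derivative : Module.End ℂ ℂ[X]) (l • (1 : Module.End ℂ ℂ[X])) :=
    (Commute.one_right _).smul_right l
  rw [h1 t]
  have h2 := hcomm.add_pow t
  have h3 := congrArg (fun E : Module.End ℂ ℂ[X] => E g) h2
  refine h3.trans ?_
  rw [LinearMap.sum_apply]
  refine sum_congr rfl fun j _ => ?_
  have e1 : (l • (1 : Module.End ℂ ℂ[X])) ^ (t - j) = l ^ (t - j) • (1 : Module.End ℂ ℂ[X]) := by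
    rw [_root_.smul_pow, one_pow]
  have e2 : ((t.choose j : ℕ) : Module.End ℂ ℂ[X]) = (t.choose j : ℂ) • (1 : Module.End ℂ ℂ[X]) := by
    rw [Nat.cast_smul_eq_nsmul, nsmul_one]
  rw [e1, e2, mul_smul_comm, mul_one, mul_smul_comm, mul_one, LinearMap.smul_apply,
    LinearMap.smul_apply, Module.End.pow_apply, smul_smul, smul_eq_C_mul]

theorem Dl_eval (l x : ℂ) (t a : ℕ) (c : ℂ) :
    (Dl l t (C c * X ^ a)).eval x = c * ∑ j ∈ range (t + 1),
      (t.choose j : ℂ) * (a.descFactorial j : ℂ) * x ^ (a - j) * l ^ (t - j) := by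
  rw [Dl_sum, eval_finsetSum, mul_sum]
  refine sum_congr rfl fun j _ => ?_
  rw [iterate_derivative_C_mul, iterate_derivative_X_pow_eq_natCast_mul]
  simp only [eval_mul, eval_C, eval_pow, eval_X, eval_natCast]
  ring

theorem natDegree_Dl (l : ℂ) (t : ℕ) (g : ℂ[X]) : (Dl l t g).natDegree ≤ g.natDegree := by
  induction t with
  | zero => exact le_rfl
  | succ t ih =>
    rw [Dl_succ]
    refine (natDegree_add_le _ _).trans (max_le ?_ ?_)
    · exact (natDegree_derivative_le _).trans (by omega)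
    · exact (natDegree_C_mul_le _ _).trans ih

theorem coeff_Dl (l : ℂ) (t : ℕ) (g : ℂ[X]) : (Dl l t g).coeff g.natDegree = l ^ t * g.leadingCoeff := by
  induction t with
  | zero => rw [Dl_zero_time, pow_zero, one_mul]; rfl
  | succ t ih =>
    rw [Dl_succ, coeff_add, coeff_C_mul, ih, coeff_derivative,
      coeff_eq_zero_of_natDegree_lt (lt_of_le_of_lt (natDegree_Dl l t g) (Nat.lt_succ_self _))]
    ring

/-! ### the determinant -/

theorem coeff_prod_le {ι : Type*} (s : Finset ι) (f : ι → ℂ[X]) (d : ι → ℕ)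
    (hf : ∀ i ∈ s, (f i).natDegree ≤ d i) :
    (∏ i ∈ s, f i).coeff (∑ i ∈ s, d i) = ∏ i ∈ s, (f i).coeff (d i) := by
  classical
  induction s using Finset.induction_on with
  | empty => simp
  | insert a s ha ih =>
    rw [prod_insert ha, sum_insert ha, prod_insert ha,
      coeff_mul_add_eq_of_natDegree_le (hf a (mem_insert_self _ _)), ih fun i hi => hf i (mem_insert_of_mem hi)]
    exact (natDegree_prod_le _ _).trans (sum_le_sum fun i hi => hf i (mem_insert_of_mem hi))

section

variable {n : ℕ} (l : Fin n → ℂ) (g : Fin n → ℂ[X])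

/-- generalised Wronskian -/
noncomputable def W (I : Fin n → ℕ) : ℂ[X] := (Matrix.of fun j i : Fin n => Dl (l j) (I i) (g j)).det

theorem W_eq (I : Fin n → ℕ) :
    W l g I = ∑ σ : Equiv.Perm (Fin n), (Equiv.Perm.sign σ : ℤ) • ∏ i, Dl (l (σ i)) (I i) (g (σ i)) := by
  unfold W
  rw [Matrix.det_apply]
  rfl

theorem derivative_W (I : Fin n → ℕ) :
    derivative (W l g I) = ∑ i, W l g (Function.update I i (I i + 1)) - C (∑ j, l j) * W l g I := by
  simp only [W_eq]
  rw [map_sum, sum_comm, mul_sum, ← sum_sub_distrib]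
  refine sum_congr rfl fun σ _ => ?_
  rw [map_zsmul, derivative_prod_finset, ← smul_sum, mul_smul_comm, ← smul_sub]
  congr 1
  have h1 : ∀ i : Fin n, (∏ j ∈ univ.erase i, Dl (l (σ j)) (I j) (g (σ j))) * derivative (Dl (l (σ i)) (I i) (g (σ i))) =
      ∏ j, Dl (l (σ j)) (Function.update I i (I i + 1) j) (g (σ j)) - C (l (σ i)) * ∏ j, Dl (l (σ j)) (I j) (g (σ j)) := by
    intro i
    rw [derivative_Dl, mul_sub]
    congr 1
    · rw [← prod_erase_mul univ _ (mem_univ i)]
      congr 1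
      · refine prod_congr rfl fun j hj => ?_
        rw [Function.update_of_ne (ne_of_mem_erase hj)]
      · rw [Function.update_self]
    · rw [← prod_erase_mul univ (fun j => Dl (l (σ j)) (I j) (g (σ j))) (mem_univ i)]
      ring
  rw [sum_congr rfl fun i _ => h1 i, sum_sub_distrib, ← sum_mul, ← map_sum, Equiv.sum_comp σ l]

theorem W_eval {T : ℕ} {x : ℂ} (hn : 0 < n) (hv : ∀ t < T, ∑ j, (Dl (l j) t (g j)).eval x = 0) (I : Fin n → ℕ)
    (hI : ∀ i, I i < T) : (W l g I).eval x = 0 := by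
  unfold W
  rw [← coe_evalRingHom, RingHom.map_det, ← Matrix.exists_vecMul_eq_zero_iff]
  refine ⟨fun _ => 1, ?_, ?_⟩
  · intro h0
    have := congrFun h0 ⟨0, hn⟩
    simp at this
  · funext i
    rw [Matrix.vecMul, dotProduct]
    simp only [one_mul, RingHom.mapMatrix_apply, Matrix.map_apply, Matrix.of_apply, coe_evalRingHom, Pi.zero_apply]
    exact hv (I i) (hI i)

theorem W_iter {T : ℕ} {x : ℂ} (hn : 0 < n) (hv : ∀ t < T, ∑ j, (Dl (l j) t (g j)).eval x = 0) (r : ℕ) :
    ∀ I : Fin n → ℕ, (∀ i, I i + r < T) → (derivative^[r] (W l g I)).eval x = 0 := by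
  induction r with
  | zero => intro I hI; exact W_eval l g hn hv I fun i => by simpa using hI i
  | succ r ih =>
    intro I hI
    rw [Function.iterate_succ_apply, derivative_W, iterate_derivative_sub, iterate_derivative_C_mul,
      iterate_derivative_sum, eval_sub, eval_mul, eval_finsetSum, ih I fun i => by have := hI i; omega, mul_zero, sub_zero]
    refine sum_eq_zero fun i _ => ih _ fun j => ?_
    by_cases hj : j = i
    · subst hj
      rw [Function.update_self]
      have := hI j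
      omega
    · rw [Function.update_of_ne hj]
      have := hI j
      omega

theorem natDegree_W (I : Fin n → ℕ) : (W l g I).natDegree ≤ ∑ j, (g j).natDegree := by
  rw [W_eq]
  refine natDegree_sum_le_of_forall_le _ _ fun σ _ => ?_
  refine (natDegree_smul_le _ _).trans ((natDegree_prod_le _ _).trans ?_)
  rw [← Equiv.sum_comp σ (fun j => (g j).natDegree)]
  exact sum_le_sum fun i _ => natDegree_Dl _ _ _

theorem W_ne_zero (hl : Function.Injective l) (hg : ∀ j, g j ≠ 0) : W l g (fun i => (i : ℕ)) ≠ 0 := by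
  intro h0
  have h1 : (W l g (fun i => (i : ℕ))).coeff (∑ j, (g j).natDegree) =
      (Matrix.of fun j i : Fin n => (g j).leadingCoeff * Matrix.vandermonde l j i).det := by
    rw [W_eq, finsetSum_coeff, Matrix.det_apply]
    refine sum_congr rfl fun σ _ => ?_
    rw [coeff_smul, ← Equiv.sum_comp σ (fun j => (g j).natDegree), coeff_prod_le _ _ _ fun i _ => natDegree_Dl _ _ _]
    congr 1
    refine prod_congr rfl fun i _ => ?_
    rw [coeff_Dl, Matrix.of_apply, Matrix.vandermonde_apply, mul_comm]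
  rw [h0, coeff_zero, Matrix.det_mul_column] at h1
  have h2 : (Matrix.vandermonde l).det ≠ 0 := Matrix.det_vandermonde_ne_zero_iff.2 hl
  have h3 : ∏ j, (g j).leadingCoeff ≠ 0 := prod_ne_zero_iff.2 fun j _ => leadingCoeff_ne_zero.2 (hg j)
  exact mul_ne_zero h3 h2 h1.symm

theorem core (hn : 0 < n) (hl : Function.Injective l) (hg0 : ∀ j, g j ≠ 0) (M : ℕ) (hg : ∀ j, (g j).natDegree < M)
    (S T : ℕ) (x : ℕ → ℂ) (hx : Set.InjOn x (Set.Iio S))
    (hv : ∀ s < S, ∀ t < T, ∑ j, (Dl (l j) t (g j)).eval (x s) = 0) : S * (T + 1 - n) ≤ n * M := by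
  rcases Nat.lt_or_ge T n with hTn | hTn
  · have : T + 1 - n = 0 := by omega
    rw [this, mul_zero]
    exact Nat.zero_le _
  set w := W l g (fun i => (i : ℕ)) with hw
  have hw0 : w ≠ 0 := W_ne_zero l g hl hg0
  have h1 : ∀ s ∈ range S, (X - C (x s)) ^ (T + 1 - n) ∣ w := by
    intro s hs
    rw [← le_rootMultiplicity_iff hw0]
    have h2 : T - n < w.rootMultiplicity (x s) := by
      refine lt_rootMultiplicity_of_isRoot_iterate_derivative hw0 fun r hr => ?_
      refine W_iter l g hn (hv s (mem_range.1 hs)) r _ fun i => ?_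
      have := i.2
      omega
    omega
  have h2 : (∏ s ∈ range S, (X - C (x s)) ^ (T + 1 - n)) ∣ w := by
    refine Finset.prod_dvd_of_coprime ?_ h1
    intro s hs s' hs' hss
    refine IsCoprime.pow ?_
    refine isCoprime_X_sub_C_of_isUnit_sub ?_
    rw [isUnit_iff_ne_zero, sub_ne_zero]
    intro h3
    exact hss (hx (by simpa using hs) (by simpa using hs') h3)
  have h3 := natDegree_le_of_dvd h2 hw0
  rw [natDegree_prod_of_monic _ _ fun s _ => (monic_X_sub_C _).pow _] at h3
  have h4 : ∀ s ∈ range S, ((X - C (x s)) ^ (T + 1 - n)).natDegree = T + 1 - n := by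
    intro s _
    rw [natDegree_pow, natDegree_X_sub_C, mul_one]
  rw [sum_congr rfl h4, sum_const, card_range, smul_eq_mul] at h3
  refine h3.trans ((natDegree_W l g _).trans ?_)
  refine (sum_le_sum fun j _ => (hg j).le).trans ?_
  rw [sum_const, card_univ, Fintype.card_fin, smul_eq_mul]

end

theorem zero_est {ι : Type*} [DecidableEq ι] (I : Finset ι) (l : ι → ℂ)
    (hl : Set.InjOn l I) (g : ι → ℂ[X]) (M : ℕ) (hg : ∀ i ∈ I, (g i).natDegree < M)
    (S T : ℕ) (x : ℕ → ℂ) (hx : Set.InjOn x (Set.Iio S))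
    (hv : ∀ s < S, ∀ t < T, ∑ i ∈ I, (Dl (l i) t (g i)).eval (x s) = 0)
    (hST : I.card * M < S * (T + 1 - I.card)) : ∀ i ∈ I, g i = 0 := by
  classical
  by_contra hcon
  push Not at hcon
  obtain ⟨i₀, hi₀, hgi₀⟩ := hcon
  set A := I.filter (fun i => g i ≠ 0) with hA
  have hAI : A ⊆ I := filter_subset _ _
  have hi₀A : i₀ ∈ A := mem_filter.2 ⟨hi₀, hgi₀⟩
  set n := A.card with hn
  have hn0 : 0 < n := card_pos.2 ⟨i₀, hi₀A⟩
  set e : Fin n ≃ A := A.equivFin.symm with he
  have hsum : ∀ (f : ι → ℂ), ∑ j : Fin n, f (e j) = ∑ i ∈ A, f i := by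
    intro f
    rw [Equiv.sum_comp e (fun i : A => f i)]
    exact Finset.sum_coe_sort A f
  have h1 := core (fun j => l (e j)) (fun j => g (e j)) hn0 ?_ ?_ M ?_ S T x hx ?_
  · have h2 : n ≤ I.card := card_le_card hAI
    have h3 : n * M ≤ I.card * M := Nat.mul_le_mul_right _ h2
    have h4 : S * (T + 1 - I.card) ≤ S * (T + 1 - n) := Nat.mul_le_mul_left _ (by omega)
    omega
  · intro j j' hjj
    have h2 := hl (hAI (e j).2) (hAI (e j').2) hjj
    exact e.injective (Subtype.ext h2)
  · intro j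
    exact (mem_filter.1 (e j).2).2
  · intro j
    exact hg _ (hAI (e j).2)
  · intro s hs t ht
    rw [hsum (fun i => (Dl (l i) t (g i)).eval (x s))]
    rw [← hv s hs t ht]
    refine sum_subset hAI fun i hi hiA => ?_
    have h2 : g i = 0 := by
      by_contra h3
      exact hiA (mem_filter.2 ⟨hi, h3⟩)
    rw [h2, Dl_zero, eval_zero]

end Pool.Agent.Helper44.PM
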