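import Pool.Agent.Helper44.PM.Res

/-!
# Lower bound at a point from a resultant, all roots at once
-/

set_option autoImplicit false

namespace Pool.Agent.Helper44.PM

open Polynomial Finset Pool.Agent.PM

theorem pow_sub_le_gen {z w : ℂ} {B : ℝ} (hB : 1 ≤ B) (hz : ‖z‖ ≤ B) (hw : ‖w‖ ≤ B) (i : ℕ) :
    ‖z ^ i - w ^ i‖ ≤ i * B ^ i * ‖z - w‖ := by
  have hB0 : 0 ≤ B := by linarith
  induction i with
  | zero => simp
  | succ i ih =>
    have h1 : z ^ (i + 1) - w ^ (i + 1) = z * (z ^ i - w ^ i) + (z - w) * w ^ i := by ring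
    rw [h1]
    refine (norm_add_le _ _).trans ?_
    rw [norm_mul, norm_mul, norm_pow]
    have h2 : ‖z‖ * ‖z ^ i - w ^ i‖ ≤ B * (i * B ^ i * ‖z - w‖) := mul_le_mul hz ih (norm_nonneg _) hB0
    have h3 : ‖w‖ ^ i ≤ B ^ (i + 1) :=
      (pow_le_pow_left₀ (norm_nonneg _) hw i).trans (pow_le_pow_right₀ hB (Nat.le_succ i))
    have h4 : ‖z - w‖ * ‖w‖ ^ i ≤ ‖z - w‖ * B ^ (i + 1) := mul_le_mul_of_nonneg_left h3 (norm_nonneg _)
    refine (add_le_add h2 h4).trans (le_of_eq ?_)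
    push_cast
    ring

theorem sub_le_gen (R : ℤ[X]) {D : ℕ} {H : ℝ} (hD : R.natDegree ≤ D)
    (hH : ∀ i, |(R.coeff i : ℝ)| ≤ H) {z w : ℂ} {B : ℝ} (hB : 1 ≤ B) (hz : ‖z‖ ≤ B) (hw : ‖w‖ ≤ B) :
    ‖aeval z R - aeval w R‖ ≤ ((D : ℝ) + 1) ^ 2 * H * B ^ D * ‖z - w‖ := by
  have hH0 : 0 ≤ H := (abs_nonneg _).trans (hH 0)
  have hB0 : 0 ≤ B := by linarith
  rw [aeval_eq_sum R hD, aeval_eq_sum R hD, ← sum_sub_distrib]
  refine (norm_sum_le _ _).trans ?_
  have h1 : ∀ i ∈ range (D + 1), ‖(R.coeff i : ℂ) * z ^ i - (R.coeff i : ℂ) * w ^ i‖ ≤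
      H * (((D : ℝ) + 1) * B ^ D * ‖z - w‖) := by
    intro i hi
    have hi' : i ≤ D := by have := mem_range.1 hi; omega
    rw [← mul_sub, norm_mul]
    refine mul_le_mul (norm_coeff hH i) ?_ (norm_nonneg _) hH0
    refine (pow_sub_le_gen hB hz hw i).trans ?_
    refine mul_le_mul_of_nonneg_right ?_ (norm_nonneg _)
    have h2 : (i : ℝ) ≤ (D : ℝ) + 1 := by
      have : (i : ℝ) ≤ D := by exact_mod_cast hi'
      linarith
    exact mul_le_mul h2 (pow_le_pow_right₀ hB hi') (by positivity) (by positivity)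
  refine (sum_le_sum h1).trans (le_of_eq ?_)
  rw [sum_const, card_range, nsmul_eq_mul]
  push_cast
  ring

theorem res_ineq2 {P R : ℤ[X]} {D : ℕ} {H x : ℝ} (hP : Irreducible P) (hd : 0 < P.natDegree)
    (hPR : ¬ P ∣ R) (hD : R.natDegree ≤ D) (hH : ∀ i, |(R.coeff i : ℝ)| ≤ H) (hH1 : 1 ≤ H)
    (hx : |x| ≤ 4)
    (hsm : 2 * |aeval x R| * ((D + 1) * H) ^ P.natDegree * Mm P ^ D < 1) :
    1 ≤ (2 * (D + 1) ^ 2 * 4 ^ D * H) ^ P.natDegree * Mm P ^ D * |aeval x P| := by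
  classical
  have hres := res_ge hP hd hPR hD
  have hMm : Mm P = ‖(P.map (Int.castRingHom ℂ)).leadingCoeff‖ *
      ((P.map (Int.castRingHom ℂ)).roots.map (fun a ↦ max 1 ‖a‖)).prod :=
    mahlerMeasure_eq_leadingCoeff_mul_prod_roots _
  set Pc := P.map (Int.castRingHom ℂ) with hPc
  have hP0 : P ≠ 0 := hP.ne_zero
  have hinj : Function.Injective (Int.castRingHom ℂ) := RingHom.injective_int _
  have hPc0 : Pc ≠ 0 := (Polynomial.map_ne_zero_iff hinj).2 hP0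
  have hsp : Pc.Splits := IsAlgClosed.splits Pc
  have hcard : Multiset.card Pc.roots = P.natDegree := by
    rw [← hsp.natDegree_eq_card_roots]
    exact natDegree_map_eq_of_injective hinj P
  have hMm1 : 1 ≤ Mm P := Pool.Agent.Helper99.PM.one_le_Mm hP0
  have hlc : 1 ≤ ‖Pc.leadingCoeff‖ := by
    rw [hPc, leadingCoeff_map_of_injective hinj, eq_intCast, Complex.norm_intCast]
    exact_mod_cast Int.one_le_abs (leadingCoeff_ne_zero.2 hP0)
  have hxc : ∀ A : ℤ[X], aeval (x : ℂ) A = ((aeval x A : ℝ) : ℂ) := by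
    intro A
    exact aeval_algebraMap_apply ℂ x A
  have hPx : |aeval x P| = ‖Pc.leadingCoeff‖ * (Pc.roots.map (fun β => ‖(x : ℂ) - β‖)).prod := by
    have h1 := hsp.eval_eq_prod_roots (x : ℂ)
    rw [eval_map_int, hxc] at h1
    have h2 := congrArg norm h1
    rw [Complex.norm_real, Real.norm_eq_abs, norm_mul] at h2
    rw [h2]
    congr 1
    have h4 := map_multiset_prod (normHom : ℂ →*₀ ℝ) (Pc.roots.map (fun z => (x : ℂ) - z))
    rw [Multiset.map_map] at h4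
    exact h4
  have hpx0 : 0 ≤ (Pc.roots.map (fun β => ‖(x : ℂ) - β‖)).prod := Multiset.prod_nonneg (by
    intro r hr
    obtain ⟨β, _, rfl⟩ := Multiset.mem_map.1 hr
    exact norm_nonneg _)
  set E : ℝ := ((D : ℝ) + 1) * H with hE
  have hD1 : (1 : ℝ) ≤ (D : ℝ) + 1 := by
    have : (0 : ℝ) ≤ D := Nat.cast_nonneg D
    linarith
  have hE1 : 1 ≤ E := one_le_mul_of_one_le_of_one_le hD1 hH1
  have hxn : ‖(x : ℂ)‖ ≤ 4 := by
    rw [Complex.norm_real, Real.norm_eq_abs]; exact hx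
  -- every value at a root is small near `x`
  have hdiff : ∀ α : ℂ, ‖aeval (x : ℂ) R - aeval α R‖ ≤
      ((D : ℝ) + 1) ^ 2 * 4 ^ D * H * (max 1 ‖α‖) ^ D * ‖(x : ℂ) - α‖ := by
    intro α
    have hm1 : 1 ≤ max 1 ‖α‖ := le_max_left _ _
    have h1 := sub_le_gen R hD hH (z := (x : ℂ)) (w := α) (B := 4 * max 1 ‖α‖) (by linarith)
      (by linarith) (by have := le_max_right 1 ‖α‖; linarith)
    refine h1.trans (le_of_eq ?_)
    rw [mul_pow]
    ring
  have hkey : ∀ α ∈ Pc.roots, ‖aeval α R‖ ≤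
      (2 * ((D : ℝ) + 1) ^ 2 * 4 ^ D * H) * ((max 1 ‖α‖) ^ D * ‖(x : ℂ) - α‖) := by
    intro α hα
    by_contra hcon
    push Not at hcon
    obtain ⟨t, ht⟩ := Multiset.exists_cons_of_mem hα
    have htcard : Multiset.card t + 1 = P.natDegree := by
      rw [← hcard, ht, Multiset.card_cons]
    have hRα : ‖aeval α R‖ ≤ 2 * |aeval x R| := by
      have h1 : aeval α R = aeval (x : ℂ) R - (aeval (x : ℂ) R - aeval α R) := by ring
      have h2 : ‖aeval α R‖ ≤ ‖aeval (x : ℂ) R‖ + ‖aeval (x : ℂ) R - aeval α R‖ := by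
        conv_lhs => rw [h1]
        exact norm_sub_le _ _
      have h3 : ‖aeval (x : ℂ) R‖ = |aeval x R| := by
        rw [hxc, Complex.norm_real, Real.norm_eq_abs]
      have h4 := hdiff α
      rw [h3] at h2
      have h5 : ((D : ℝ) + 1) ^ 2 * 4 ^ D * H * (max 1 ‖α‖) ^ D * ‖(x : ℂ) - α‖ =
          (2 * ((D : ℝ) + 1) ^ 2 * 4 ^ D * H) * ((max 1 ‖α‖) ^ D * ‖(x : ℂ) - α‖) / 2 := by ring
      rw [h5] at h4
      linarith
    have hT : ‖Pc.leadingCoeff‖ ^ D * (t.map (fun z => ‖aeval z R‖)).prod ≤ E ^ Multiset.card t * Mm P ^ D := by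
      have h1 := Multiset.prod_map_le_prod_map₀ (s := t) (fun z => ‖aeval z R‖) (fun z => E * (max 1 ‖z‖) ^ D)
        (fun _ _ => norm_nonneg _) (fun z _ => eval_le R hD hH z)
      rw [Multiset.prod_map_mul, Multiset.map_const', Multiset.prod_replicate, Multiset.prod_map_pow] at h1
      have h2 : ‖Pc.leadingCoeff‖ * (t.map (fun a ↦ max 1 ‖a‖)).prod ≤ Mm P := by
        rw [hMm, ht, Multiset.map_cons, Multiset.prod_cons]
        refine mul_le_mul_of_nonneg_left ?_ (norm_nonneg _)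
        exact le_mul_of_one_le_left (Multiset.prod_nonneg (by
          intro r hr
          obtain ⟨β, _, rfl⟩ := Multiset.mem_map.1 hr
          positivity)) (le_max_left _ _)
      have h3 : 0 ≤ ‖Pc.leadingCoeff‖ * (t.map (fun a ↦ max 1 ‖a‖)).prod := mul_nonneg (norm_nonneg _)
        (Multiset.prod_nonneg (by
          intro r hr
          obtain ⟨β, _, rfl⟩ := Multiset.mem_map.1 hr
          positivity))
      calc ‖Pc.leadingCoeff‖ ^ D * (t.map (fun z => ‖aeval z R‖)).prod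
          ≤ ‖Pc.leadingCoeff‖ ^ D * (E ^ Multiset.card t * (t.map (fun a ↦ max 1 ‖a‖)).prod ^ D) :=
            mul_le_mul_of_nonneg_left h1 (by positivity)
        _ = E ^ Multiset.card t * (‖Pc.leadingCoeff‖ * (t.map (fun a ↦ max 1 ‖a‖)).prod) ^ D := by
            rw [mul_pow]; ring
        _ ≤ E ^ Multiset.card t * Mm P ^ D :=
            mul_le_mul_of_nonneg_left (pow_le_pow_left₀ h3 h2 D) (by positivity)
    have hα1 : 1 ≤ ‖aeval α R‖ * (E ^ Multiset.card t * Mm P ^ D) := by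
      refine hres.trans ?_
      rw [ht, Multiset.map_cons, Multiset.prod_cons]
      calc ‖Pc.leadingCoeff‖ ^ D * (‖aeval α R‖ * (t.map (fun z => ‖aeval z R‖)).prod)
          = ‖aeval α R‖ * (‖Pc.leadingCoeff‖ ^ D * (t.map (fun z => ‖aeval z R‖)).prod) := by ring
        _ ≤ _ := mul_le_mul_of_nonneg_left hT (norm_nonneg _)
    have h1 : E ^ Multiset.card t ≤ E ^ P.natDegree := pow_le_pow_right₀ hE1 (by omega)
    have h2 : ‖aeval α R‖ * (E ^ Multiset.card t * Mm P ^ D) ≤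
        (2 * |aeval x R|) * (E ^ P.natDegree * Mm P ^ D) :=
      mul_le_mul hRα (mul_le_mul_of_nonneg_right h1 (by positivity)) (by positivity) (by positivity)
    have h3 : (2 * |aeval x R|) * (E ^ P.natDegree * Mm P ^ D) < 1 := by
      refine lt_of_eq_of_lt ?_ hsm
      ring
    linarith
  have hprod := Multiset.prod_map_le_prod_map₀ (s := Pc.roots) (fun z => ‖aeval z R‖)
    (fun z => (2 * ((D : ℝ) + 1) ^ 2 * 4 ^ D * H) * ((max 1 ‖z‖) ^ D * ‖(x : ℂ) - z‖))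
    (fun _ _ => norm_nonneg _) hkey
  rw [Multiset.prod_map_mul, Multiset.map_const', Multiset.prod_replicate, Multiset.prod_map_mul,
    Multiset.prod_map_pow, hcard] at hprod
  have hB0 : 0 ≤ (2 * ((D : ℝ) + 1) ^ 2 * 4 ^ D * H) ^ P.natDegree := by positivity
  calc (1 : ℝ) ≤ ‖Pc.leadingCoeff‖ ^ D * (Pc.roots.map (fun z => ‖aeval z R‖)).prod := hres
    _ ≤ ‖Pc.leadingCoeff‖ ^ D * ((2 * ((D : ℝ) + 1) ^ 2 * 4 ^ D * H) ^ P.natDegree *
        ((Pc.roots.map (fun a ↦ max 1 ‖a‖)).prod ^ D * (Pc.roots.map (fun β => ‖(x : ℂ) - β‖)).prod)) :=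
      mul_le_mul_of_nonneg_left hprod (by positivity)
    _ = (2 * ((D : ℝ) + 1) ^ 2 * 4 ^ D * H) ^ P.natDegree * Mm P ^ D *
        (Pc.roots.map (fun β => ‖(x : ℂ) - β‖)).prod := by
      rw [hMm, mul_pow]; ring
    _ ≤ (2 * ((D : ℝ) + 1) ^ 2 * 4 ^ D * H) ^ P.natDegree * Mm P ^ D * |aeval x P| := by
      refine mul_le_mul_of_nonneg_left ?_ (by positivity)
      rw [hPx]
      exact le_mul_of_one_le_left hpx0 hlc

end Pool.Agent.Helper44.PM
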