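import Pool.Agent.Helper99.PM.R2

/-!
# Lower bound at a point from a resultant
-/

set_option autoImplicit false

namespace Pool.Agent.Helper44.PM

open Polynomial Finset Pool.Agent.PM

theorem aeval_eq_sum {D : ℕ} (R : ℤ[X]) (hD : R.natDegree ≤ D) (z : ℂ) :
    aeval z R = ∑ i ∈ range (D + 1), (R.coeff i : ℂ) * z ^ i := by
  rw [aeval_eq_sum_range' (Nat.lt_succ_of_le hD)]
  refine sum_congr rfl fun i _ => ?_
  rw [zsmul_eq_mul]

theorem norm_coeff {R : ℤ[X]} {H : ℝ} (hH : ∀ i, |(R.coeff i : ℝ)| ≤ H) (i : ℕ) :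
    ‖(R.coeff i : ℂ)‖ ≤ H := by
  rw [Complex.norm_intCast]
  exact hH i

theorem eval_le (R : ℤ[X]) {D : ℕ} {H : ℝ} (hD : R.natDegree ≤ D)
    (hH : ∀ i, |(R.coeff i : ℝ)| ≤ H) (z : ℂ) :
    ‖aeval z R‖ ≤ ((D : ℝ) + 1) * H * (max 1 ‖z‖) ^ D := by
  have hH0 : 0 ≤ H := (abs_nonneg _).trans (hH 0)
  rw [aeval_eq_sum R hD]
  refine (norm_sum_le _ _).trans ?_
  have h1 : ∀ i ∈ range (D + 1), ‖(R.coeff i : ℂ) * z ^ i‖ ≤ H * (max 1 ‖z‖) ^ D := by
    intro i hi
    rw [norm_mul, norm_pow]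
    refine mul_le_mul (norm_coeff hH i) ?_ (by positivity) hH0
    refine (pow_le_pow_left₀ (norm_nonneg _) (le_max_right 1 ‖z‖) i).trans ?_
    exact pow_le_pow_right₀ (le_max_left _ _) (by have := mem_range.1 hi; omega)
  refine (sum_le_sum h1).trans (le_of_eq ?_)
  rw [sum_const, card_range, nsmul_eq_mul]
  push_cast
  ring

theorem pow_sub_le {z w : ℂ} (hz : ‖z‖ ≤ 5) (hw : ‖w‖ ≤ 5) (i : ℕ) :
    ‖z ^ i - w ^ i‖ ≤ i * 5 ^ i * ‖z - w‖ := by
  induction i with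
  | zero => simp
  | succ i ih =>
    have h1 : z ^ (i + 1) - w ^ (i + 1) = z * (z ^ i - w ^ i) + (z - w) * w ^ i := by ring
    rw [h1]
    refine (norm_add_le _ _).trans ?_
    rw [norm_mul, norm_mul, norm_pow]
    have h2 : ‖z‖ * ‖z ^ i - w ^ i‖ ≤ 5 * (i * 5 ^ i * ‖z - w‖) := mul_le_mul hz ih (norm_nonneg _) (by norm_num)
    have h3 : ‖w‖ ^ i ≤ 5 ^ (i + 1) :=
      (pow_le_pow_left₀ (norm_nonneg _) hw i).trans (pow_le_pow_right₀ (by norm_num) (Nat.le_succ i))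
    have h4 : ‖z - w‖ * ‖w‖ ^ i ≤ ‖z - w‖ * 5 ^ (i + 1) := mul_le_mul_of_nonneg_left h3 (norm_nonneg _)
    refine (add_le_add h2 h4).trans (le_of_eq ?_)
    push_cast
    ring

theorem sub_le (R : ℤ[X]) {D : ℕ} {H : ℝ} (hD : R.natDegree ≤ D)
    (hH : ∀ i, |(R.coeff i : ℝ)| ≤ H) {z w : ℂ} (hz : ‖z‖ ≤ 5) (hw : ‖w‖ ≤ 5) :
    ‖aeval z R - aeval w R‖ ≤ ((D : ℝ) + 1) * (((D : ℝ) + 1) * H) * 5 ^ D * ‖z - w‖ := by
  have hH0 : 0 ≤ H := (abs_nonneg _).trans (hH 0)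
  rw [aeval_eq_sum R hD, aeval_eq_sum R hD, ← sum_sub_distrib]
  refine (norm_sum_le _ _).trans ?_
  have h1 : ∀ i ∈ range (D + 1), ‖(R.coeff i : ℂ) * z ^ i - (R.coeff i : ℂ) * w ^ i‖ ≤
      H * (((D : ℝ) + 1) * 5 ^ D * ‖z - w‖) := by
    intro i hi
    have hi' : i ≤ D := by have := mem_range.1 hi; omega
    rw [← mul_sub, norm_mul]
    refine mul_le_mul (norm_coeff hH i) ?_ (norm_nonneg _) hH0
    refine (pow_sub_le hz hw i).trans ?_
    refine mul_le_mul_of_nonneg_right ?_ (norm_nonneg _)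
    have h2 : (i : ℝ) ≤ (D : ℝ) + 1 := by
      have : (i : ℝ) ≤ D := by exact_mod_cast hi'
      linarith
    exact mul_le_mul h2 (pow_le_pow_right₀ (by norm_num) hi') (by positivity) (by positivity)
  refine (sum_le_sum h1).trans (le_of_eq ?_)
  rw [sum_const, card_range, nsmul_eq_mul]
  push_cast
  ring

theorem eval_map_int (P : ℤ[X]) (z : ℂ) : eval z (P.map (Int.castRingHom ℂ)) = aeval z P := by
  rw [eval_map, aeval_def]
  rfl

theorem res_ge {P R : ℤ[X]} {D : ℕ} (hP : Irreducible P) (hd : 0 < P.natDegree)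
    (hPR : ¬ P ∣ R) (hD : R.natDegree ≤ D) :
    1 ≤ ‖(P.map (Int.castRingHom ℂ)).leadingCoeff‖ ^ D *
      ((P.map (Int.castRingHom ℂ)).roots.map (fun z => ‖aeval z R‖)).prod := by
  set Pc := P.map (Int.castRingHom ℂ) with hPc
  have hP0 : P ≠ 0 := hP.ne_zero
  have hinj : Function.Injective (Int.castRingHom ℂ) := RingHom.injective_int _
  have hPc0 : Pc ≠ 0 := (Polynomial.map_ne_zero_iff hinj).2 hP0
  have hsp : Pc.Splits := IsAlgClosed.splits Pc
  have h1 := resultant_eq_prod_eval Pc (R.map (Int.castRingHom ℂ)) D (natDegree_map_le.trans hD) hsp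
  rw [resultant_map_map] at h1
  have h2 : ‖Pc.leadingCoeff‖ ^ D * (Pc.roots.map (fun z => ‖aeval z R‖)).prod =
      ‖((resultant P R Pc.natDegree D : ℤ) : ℂ)‖ := by
    have h3 : ((resultant P R Pc.natDegree D : ℤ) : ℂ) = Pc.leadingCoeff ^ D *
        (Pc.roots.map (fun z => aeval z R)).prod := by
      rw [← eq_intCast (Int.castRingHom ℂ), h1]
      congr 3
      funext z
      exact eval_map_int R z
    rw [h3, norm_mul, norm_pow]
    congr 1
    have h4 := map_multiset_prod (normHom : ℂ →*₀ ℝ) (Pc.roots.map (fun z => aeval z R))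
    rw [Multiset.map_map] at h4
    exact h4.symm
  rw [h2, Complex.norm_intCast]
  have h5 : resultant P R Pc.natDegree D ≠ 0 := by
    intro h0
    rw [h0, Int.cast_zero, norm_zero] at h2
    rcases mul_eq_zero.1 h2 with h6 | h6
    · have h7 : ‖Pc.leadingCoeff‖ = 0 := by
        by_contra h8
        exact pow_ne_zero D h8 h6
      exact hPc0 (leadingCoeff_eq_zero.1 (norm_eq_zero.1 h7))
    · rw [Multiset.prod_eq_zero_iff, Multiset.mem_map] at h6
      obtain ⟨z, hz, hz0⟩ := h6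
      rw [mem_roots hPc0, IsRoot.def, eval_map_int] at hz
      exact hPR (Pool.Agent.Helper99.PM.dvd_of_root hP hd hz (norm_eq_zero.1 hz0))
  exact_mod_cast Int.one_le_abs h5

theorem res_ineq {P R : ℤ[X]} {D : ℕ} {H x : ℝ} (hP : Irreducible P) (hd : 0 < P.natDegree)
    (hPR : ¬ P ∣ R) (hD : R.natDegree ≤ D) (hH : ∀ i, |(R.coeff i : ℝ)| ≤ H) (hH1 : 1 ≤ H)
    (hx : |x| ≤ 4)
    (hsm : 2 * |aeval x R| * ((D + 1) * H) ^ P.natDegree * Mm P ^ D ≤ 1) :
    1 ≤ (2 * 5 ^ D * (D + 1) * ((D + 1) * H) ^ P.natDegree * Mm P ^ D) ^ P.natDegree *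
      |aeval x P| := by
  classical
  have hres := res_ge hP hd hPR hD
  have hMm : Mm P = ‖(P.map (Int.castRingHom ℂ)).leadingCoeff‖ *
      ((P.map (Int.castRingHom ℂ)).roots.map (fun a ↦ max 1 ‖a‖)).prod :=
    mahlerMeasure_eq_leadingCoeff_mul_prod_roots _
  set Pc := P.map (Int.castRingHom ℂ) with hPc
  have hP0 : P ≠ 0 := hP.ne_zero
  have hinj : Function.Injective (Int.castRingHom ℂ) := RingHom.injective_int _
  have hPc0 : Pc ≠ 0 := (Polynomial.map_ne_zero_iff hinj).2 hP0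
  have hsp : Pc.Splits := IsAlgClosed.splits Pc
  have hcard : Multiset.card Pc.roots = P.natDegree := by
    rw [← hsp.natDegree_eq_card_roots]
    exact natDegree_map_eq_of_injective hinj P
  have hMm1 : 1 ≤ Mm P := Pool.Agent.Helper99.PM.one_le_Mm hP0
  have hlc : 1 ≤ ‖Pc.leadingCoeff‖ := by
    rw [hPc, leadingCoeff_map_of_injective hinj, eq_intCast, Complex.norm_intCast]
    exact_mod_cast Int.one_le_abs (leadingCoeff_ne_zero.2 hP0)
  have hxc : ∀ A : ℤ[X], aeval (x : ℂ) A = ((aeval x A : ℝ) : ℂ) := by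
    intro A
    exact aeval_algebraMap_apply ℂ x A
  have hPx : |aeval x P| = ‖Pc.leadingCoeff‖ * (Pc.roots.map (fun β => ‖(x : ℂ) - β‖)).prod := by
    have h1 := hsp.eval_eq_prod_roots (x : ℂ)
    rw [eval_map_int, hxc] at h1
    have h2 := congrArg norm h1
    rw [Complex.norm_real, Real.norm_eq_abs, norm_mul] at h2
    rw [h2]
    congr 1
    have h4 := map_multiset_prod (normHom : ℂ →*₀ ℝ) (Pc.roots.map (fun z => (x : ℂ) - z))
    rw [Multiset.map_map] at h4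
    exact h4
  have hne : Pc.roots.toFinset.Nonempty := by
    rw [Multiset.toFinset_nonempty]
    intro h0
    rw [h0, Multiset.card_zero] at hcard
    omega
  obtain ⟨α, hα, hmin⟩ := Finset.exists_min_image Pc.roots.toFinset (fun β => ‖(x : ℂ) - β‖) hne
  rw [Multiset.mem_toFinset] at hα
  obtain ⟨t, ht⟩ := Multiset.exists_cons_of_mem hα
  have htcard : Multiset.card t + 1 = P.natDegree := by
    rw [← hcard, ht, Multiset.card_cons]
  -- P is small only near a root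
  have hPlow : ‖(x : ℂ) - α‖ ^ P.natDegree ≤ |aeval x P| := by
    rw [hPx, ← hcard]
    have h1 : ‖(x : ℂ) - α‖ ^ Multiset.card Pc.roots ≤ (Pc.roots.map (fun β => ‖(x : ℂ) - β‖)).prod := by
      have h2 := Multiset.prod_map_le_prod_map₀ (s := Pc.roots) (fun _ => ‖(x : ℂ) - α‖) (fun β => ‖(x : ℂ) - β‖)
        (fun _ _ => norm_nonneg _) (fun β hβ => hmin β (Multiset.mem_toFinset.2 hβ))
      simpa using h2
    refine h1.trans ?_
    exact le_mul_of_one_le_left (Multiset.prod_nonneg (by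
      intro r hr
      obtain ⟨β, _, rfl⟩ := Multiset.mem_map.1 hr
      exact norm_nonneg _)) hlc
  set E : ℝ := ((D : ℝ) + 1) * H with hE
  have hE1 : 1 ≤ E := by
    have : (1 : ℝ) ≤ (D : ℝ) + 1 := by
      have : (0 : ℝ) ≤ D := Nat.cast_nonneg D
      linarith
    exact one_le_mul_of_one_le_of_one_le this hH1
  have hB1 : 1 ≤ 2 * 5 ^ D * ((D : ℝ) + 1) * E ^ P.natDegree * Mm P ^ D := by
    have h1 : (1 : ℝ) ≤ 5 ^ D := one_le_pow₀ (by norm_num)
    have h2 : (1 : ℝ) ≤ (D : ℝ) + 1 := by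
      have : (0 : ℝ) ≤ D := Nat.cast_nonneg D
      linarith
    have h3 : 1 ≤ E ^ P.natDegree := one_le_pow₀ hE1
    have h4 : 1 ≤ Mm P ^ D := one_le_pow₀ hMm1
    have h5 : (1 : ℝ) ≤ 2 * 5 ^ D := by linarith
    exact one_le_mul_of_one_le_of_one_le (one_le_mul_of_one_le_of_one_le (one_le_mul_of_one_le_of_one_le h5 h2) h3) h4
  rcases lt_or_ge 1 ‖(x : ℂ) - α‖ with hfar | hnear
  · have h1 : 1 ≤ |aeval x P| := (one_le_pow₀ hfar.le).trans hPlow
    exact one_le_mul_of_one_le_of_one_le (one_le_pow₀ hB1) h1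
  -- the resultant inequality
  have hxn : ‖(x : ℂ)‖ ≤ 4 := by
    rw [Complex.norm_real, Real.norm_eq_abs]; exact hx
  have hαn : ‖α‖ ≤ 5 := by
    have h1 : α = (x : ℂ) - ((x : ℂ) - α) := by ring
    rw [h1]
    refine (norm_sub_le _ _).trans ?_
    linarith
  have hT : ‖Pc.leadingCoeff‖ ^ D * (t.map (fun z => ‖aeval z R‖)).prod ≤ E ^ Multiset.card t * Mm P ^ D := by
    have h1 := Multiset.prod_map_le_prod_map₀ (s := t) (fun z => ‖aeval z R‖) (fun z => E * (max 1 ‖z‖) ^ D)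
      (fun _ _ => norm_nonneg _) (fun z _ => eval_le R hD hH z)
    rw [Multiset.prod_map_mul, Multiset.map_const', Multiset.prod_replicate, Multiset.prod_map_pow] at h1
    have h2 : ‖Pc.leadingCoeff‖ * (t.map (fun a ↦ max 1 ‖a‖)).prod ≤ Mm P := by
      rw [hMm, ht, Multiset.map_cons, Multiset.prod_cons]
      refine mul_le_mul_of_nonneg_left ?_ (norm_nonneg _)
      exact le_mul_of_one_le_left (Multiset.prod_nonneg (by
        intro r hr
        obtain ⟨β, _, rfl⟩ := Multiset.mem_map.1 hr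
        positivity)) (le_max_left _ _)
    have h3 : 0 ≤ ‖Pc.leadingCoeff‖ * (t.map (fun a ↦ max 1 ‖a‖)).prod := mul_nonneg (norm_nonneg _)
      (Multiset.prod_nonneg (by
        intro r hr
        obtain ⟨β, _, rfl⟩ := Multiset.mem_map.1 hr
        positivity))
    calc ‖Pc.leadingCoeff‖ ^ D * (t.map (fun z => ‖aeval z R‖)).prod
        ≤ ‖Pc.leadingCoeff‖ ^ D * (E ^ Multiset.card t * (t.map (fun a ↦ max 1 ‖a‖)).prod ^ D) :=
          mul_le_mul_of_nonneg_left h1 (by positivity)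
      _ = E ^ Multiset.card t * (‖Pc.leadingCoeff‖ * (t.map (fun a ↦ max 1 ‖a‖)).prod) ^ D := by
          rw [mul_pow]; ring
      _ ≤ E ^ Multiset.card t * Mm P ^ D :=
          mul_le_mul_of_nonneg_left (pow_le_pow_left₀ h3 h2 D) (by positivity)
  have hα1 : 1 ≤ ‖aeval α R‖ * (E ^ Multiset.card t * Mm P ^ D) := by
    refine hres.trans ?_
    rw [ht, Multiset.map_cons, Multiset.prod_cons]
    calc ‖Pc.leadingCoeff‖ ^ D * (‖aeval α R‖ * (t.map (fun z => ‖aeval z R‖)).prod)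
        = ‖aeval α R‖ * (‖Pc.leadingCoeff‖ ^ D * (t.map (fun z => ‖aeval z R‖)).prod) := by ring
      _ ≤ _ := mul_le_mul_of_nonneg_left hT (norm_nonneg _)
  have hpos : 0 < E ^ Multiset.card t * Mm P ^ D := by positivity
  have hx1 : |aeval x R| * (E ^ Multiset.card t * Mm P ^ D) ≤ 1 / 2 := by
    have h1 : E ^ Multiset.card t ≤ E ^ P.natDegree := pow_le_pow_right₀ hE1 (by omega)
    have h2 : |aeval x R| * (E ^ Multiset.card t * Mm P ^ D) ≤ |aeval x R| * (E ^ P.natDegree * Mm P ^ D) :=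
      mul_le_mul_of_nonneg_left (mul_le_mul_of_nonneg_right h1 (by positivity)) (abs_nonneg _)
    have h3 : 2 * (|aeval x R| * (E ^ P.natDegree * Mm P ^ D)) ≤ 1 := by
      refine le_trans (le_of_eq ?_) hsm
      ring
    linarith
  have hαx : ‖aeval α R‖ ≤ |aeval x R| + ((D : ℝ) + 1) * E * 5 ^ D * ‖(x : ℂ) - α‖ := by
    have h1 : aeval α R = aeval (x : ℂ) R - (aeval (x : ℂ) R - aeval α R) := by ring
    rw [h1]
    refine (norm_sub_le _ _).trans ?_
    rw [hxc, Complex.norm_real, Real.norm_eq_abs, ← hxc]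
    gcongr
    exact sub_le R hD hH (by linarith) hαn
  have hfin : 1 ≤ (2 * 5 ^ D * ((D : ℝ) + 1) * E ^ P.natDegree * Mm P ^ D) * ‖(x : ℂ) - α‖ := by
    have h1 := mul_le_mul_of_nonneg_right hαx hpos.le
    rw [add_mul] at h1
    have h2 : ((D : ℝ) + 1) * E * 5 ^ D * ‖(x : ℂ) - α‖ * (E ^ Multiset.card t * Mm P ^ D) =
        5 ^ D * ((D : ℝ) + 1) * E ^ P.natDegree * Mm P ^ D * ‖(x : ℂ) - α‖ := by
      rw [← htcard, pow_succ]
      ring
    rw [h2] at h1
    nlinarith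
  calc (1 : ℝ) ≤ ((2 * 5 ^ D * ((D : ℝ) + 1) * E ^ P.natDegree * Mm P ^ D) * ‖(x : ℂ) - α‖) ^ P.natDegree :=
        one_le_pow₀ hfin
    _ = (2 * 5 ^ D * ((D : ℝ) + 1) * E ^ P.natDegree * Mm P ^ D) ^ P.natDegree * ‖(x : ℂ) - α‖ ^ P.natDegree := by
        rw [mul_pow]
    _ ≤ _ := mul_le_mul_of_nonneg_left hPlow (by positivity)

end Pool.Agent.Helper44.PM
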